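import Pool.Agent.H23.CMC.Targets
import Pool.Agent.H18.GLB.GE

/-!
# The Gamma factor (GMP)
-/

set_option autoImplicit false

open NumberField MeasureTheory Set Filter Complex
open scoped nonZeroDivisors Real

namespace Pool.Agent.H54.CMC

open Pool.Agent.H23.CMC
open Pool.Agent.H65.CM4 (Sq nm dg Pl rv)
open Pool.Agent.H65.CMC (Emb ty PrTo IsHk ms IsLk gg GM cG Km Idx cdc Fmc lc)

/-- the factor of a place -/
noncomputable def ff (n : ℤ) (s : ℂ) : ℂ := Complex.Gamma (s + ((|n| : ℤ) : ℂ)) * (2 * (π : ℂ)) ^ (-s)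

theorem two_pi_ne : (2 * (π : ℂ)) ≠ 0 :=
  mul_ne_zero two_ne_zero (Complex.ofReal_ne_zero.2 Real.pi_ne_zero)

theorem abs_re (n : ℤ) : (((|n| : ℤ) : ℂ)).re = ((|n| : ℤ) : ℝ) := Complex.intCast_re _

theorem re_pos (n : ℤ) {s : ℂ} (hs : 0 < s.re) : 0 < (s + ((|n| : ℤ) : ℂ)).re := by
  rw [Complex.add_re, abs_re]
  have : (0 : ℝ) ≤ ((|n| : ℤ) : ℝ) := by exact_mod_cast abs_nonneg n
  linarith

theorem cpow_diff : Differentiable ℂ fun s : ℂ => (2 * (π : ℂ)) ^ (-s) := by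
  intro s
  exact (differentiableAt_id.neg).const_cpow (Or.inl two_pi_ne)

theorem cpow_ne (s : ℂ) : (2 * (π : ℂ)) ^ (-s) ≠ 0 := by
  rw [Ne, Complex.cpow_eq_zero_iff]
  exact fun h => two_pi_ne h.1

theorem ff_diff (n : ℤ) {s : ℂ} (hs : 0 < s.re) : DifferentiableAt ℂ (ff n) s := by
  have h1 : DifferentiableAt ℂ Complex.Gamma (s + ((|n| : ℤ) : ℂ)) := by
    refine Complex.differentiableAt_Gamma _ fun m hm => ?_
    have h2 := re_pos n hs
    rw [hm, Complex.neg_re, Complex.natCast_re] at h2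
    have h3 : (0 : ℝ) ≤ (m : ℝ) := Nat.cast_nonneg m
    linarith
  have h2 : DifferentiableAt ℂ (fun s : ℂ => s + ((|n| : ℤ) : ℂ)) s :=
    differentiableAt_id.add (differentiableAt_const _)
  exact (DifferentiableAt.comp s h1 h2).mul (cpow_diff s)

theorem ff_ne (n : ℤ) {s : ℂ} (hs : 0 < s.re) : ff n s ≠ 0 :=
  mul_ne_zero (Complex.Gamma_ne_zero_of_re_pos (re_pos n hs)) (cpow_ne s)

theorem ff_inv (n : ℤ) : Differentiable ℂ fun s => (ff n s)⁻¹ := by
  have h1 : Differentiable ℂ fun s : ℂ => (Complex.Gamma (s + ((|n| : ℤ) : ℂ)))⁻¹ :=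
    Complex.differentiable_one_div_Gamma.comp (differentiable_id.add (differentiable_const _))
  have h2 : Differentiable ℂ fun s : ℂ => ((2 * (π : ℂ)) ^ (-s))⁻¹ :=
    cpow_diff.inv fun s => cpow_ne s
  have h3 : (fun s => (ff n s)⁻¹) = fun s => (Complex.Gamma (s + ((|n| : ℤ) : ℂ)))⁻¹ *
      ((2 * (π : ℂ)) ^ (-s))⁻¹ := by
    funext s
    unfold ff
    rw [mul_inv]
  rw [h3]
  exact h1.mul h2

theorem ff_bd (n : ℤ) (b : ℝ) : ∃ C : ℝ, 0 ≤ C ∧ ∀ s : ℂ, 1 / 4 ≤ s.re → s.re ≤ b →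
    ‖ff n s‖ ≤ C := by
  have hc : ContinuousOn Real.Gamma (Icc (1 / 4 + ((|n| : ℤ) : ℝ)) (b + ((|n| : ℤ) : ℝ))) := by
    intro x hx
    refine (Real.differentiableAt_Gamma fun m hm => ?_).continuousAt.continuousWithinAt
    have h1 := hx.1
    have h2 : (0 : ℝ) ≤ ((|n| : ℤ) : ℝ) := by exact_mod_cast abs_nonneg n
    have h3 : (0 : ℝ) ≤ (m : ℝ) := Nat.cast_nonneg m
    rw [hm] at h1
    linarith
  obtain ⟨C, hC⟩ := (isCompact_Icc.image_of_continuousOn hc).bddAbove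
  refine ⟨|C|, abs_nonneg _, fun s h1 h2 => ?_⟩
  have hs : 0 < s.re := by linarith
  unfold ff
  rw [norm_mul]
  have h3 : ‖Complex.Gamma (s + ((|n| : ℤ) : ℂ))‖ ≤ |C| := by
    refine (Pool.Agent.H18.GLB.GEa.norm_Gamma_le_re (re_pos n hs)).trans
      ((hC ⟨_, ⟨?_, ?_⟩, rfl⟩).trans (le_abs_self C))
    · rw [Complex.add_re, abs_re]; linarith
    · rw [Complex.add_re, abs_re]; linarith
  have h4 : ‖(2 * (π : ℂ)) ^ (-s)‖ ≤ 1 := by
    have e : (2 * (π : ℂ)) = ((2 * π : ℝ) : ℂ) := by push_cast; ring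
    have h5 : (0 : ℝ) < 2 * π := by positivity
    rw [e, Complex.norm_cpow_eq_rpow_re_of_pos h5, Complex.neg_re]
    refine Real.rpow_le_one_of_one_le_of_nonpos ?_ (by linarith)
    have := Real.pi_gt_three
    linarith
  calc ‖Complex.Gamma (s + ((|n| : ℤ) : ℂ))‖ * ‖(2 * (π : ℂ)) ^ (-s)‖ ≤ |C| * 1 :=
        mul_le_mul h3 h4 (norm_nonneg _) (abs_nonneg _)
    _ = |C| := mul_one _

section

variable {k : Type} [Field k] [NumberField k]

theorem gM_eq (m : Pl k → ℤ) (s : ℂ) : gM m s = ∏ v : Pl k, ff (m v) s := rfl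

theorem gM_bd (m : Pl k → ℤ) (b : ℝ) : ∃ C : ℝ, 0 ≤ C ∧ ∀ s : ℂ, 1 / 4 ≤ s.re → s.re ≤ b →
    ‖gM m s‖ ≤ C := by
  choose C hC0 hC using fun v : Pl k => ff_bd (m v) b
  refine ⟨∏ v, C v, Finset.prod_nonneg fun v _ => hC0 v, fun s h1 h2 => ?_⟩
  rw [gM_eq, norm_prod]
  exact Finset.prod_le_prod (fun v _ => norm_nonneg _) fun v _ => hC v s h1 h2

theorem GM_eq [IsTotallyReal k] (m : Pl k → ℤ) (s : ℂ) :
    GM m s = (s * (s - 1)) ^ dg k * gM m s := by
  have hcard : Fintype.card (Pl k) = dg k := by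
    have h1 : Module.finrank ℚ k = InfinitePlace.nrRealPlaces k := IsTotallyReal.finrank k
    have h2 : Fintype.card (InfinitePlace k) =
        InfinitePlace.nrRealPlaces k + InfinitePlace.nrComplexPlaces k :=
      InfinitePlace.card_eq_nrRealPlaces_add_nrComplexPlaces k
    have h3 : InfinitePlace.nrComplexPlaces k = 0 := IsTotallyReal.nrComplexPlaces_eq_zero k
    unfold dg
    rw [h1]
    change Fintype.card (InfinitePlace k) = _
    rw [h2, h3, add_zero]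
  have h4 : GM m s = ∏ v : Pl k, (s * (s - 1)) * ff (m v) s := by
    unfold GM
    refine Finset.prod_congr rfl fun v _ => ?_
    unfold gg ff
    ring
  rw [h4, Finset.prod_mul_distrib, Finset.prod_const, Finset.card_univ, hcard, gM_eq]

end

theorem pf_GMP : T_GMP := by
  intro k _ _ _ m
  have hd : ∀ s : ℂ, 0 < s.re → DifferentiableAt ℂ (gM m) s := by
    intro s hs
    have h1 : gM m = fun s => ∏ v : Pl k, ff (m v) s := funext fun s => gM_eq m s
    rw [h1]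
    exact DifferentiableAt.fun_finsetProd fun v _ => ff_diff (m v) hs
  have hn : ∀ s : ℂ, 0 < s.re → gM m s ≠ 0 := by
    intro s hs
    rw [gM_eq]
    exact Finset.prod_ne_zero_iff.2 fun v _ => ff_ne (m v) hs
  refine ⟨fun s hs => ⟨hd s hs, hn s hs⟩, GM_eq m, fun s hs => ⟨?_, fun h1 => ?_⟩, ?_, ?_, ?_, ?_⟩
  · have h1 : GM m = fun s => (s * (s - 1)) ^ dg k * gM m s := funext fun s => GM_eq m s
    rw [h1]
    exact ((differentiableAt_id.mul (differentiableAt_id.sub (differentiableAt_const _))).pow _).mul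
      (hd s hs)
  · rw [GM_eq]
    refine mul_ne_zero (pow_ne_zero _ (mul_ne_zero ?_ (sub_ne_zero.2 h1))) (hn s hs)
    intro h0
    rw [h0] at hs
    simp at hs
  · have h1 : (fun s => (gM m s)⁻¹) = fun s => ∏ v : Pl k, (ff (m v) s)⁻¹ := by
      funext s
      rw [gM_eq, Finset.prod_inv_distrib]
    rw [h1]
    intro s
    exact DifferentiableAt.fun_finsetProd fun v _ => ff_inv (m v) s
  · intro v hv
    rw [gM_eq, Finset.prod_eq_zero (Finset.mem_univ v), inv_zero]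
    unfold ff
    rw [hv]
    simp [Complex.Gamma_zero]
  · intro b
    obtain ⟨C, -, hC⟩ := gM_bd m b
    exact ⟨C, hC⟩
  · intro b
    obtain ⟨C, hC0, hC⟩ := gM_bd m b
    refine ⟨C, fun s h1 h2 => ?_⟩
    rw [GM_eq, norm_mul, norm_pow, mul_comm]
    refine mul_le_mul (hC s h1 h2) ?_ (by positivity) hC0
    rw [pow_mul]
    refine pow_le_pow_left₀ (norm_nonneg _) ?_ _
    rw [norm_mul, sq]
    refine mul_le_mul (by linarith [norm_nonneg s]) ?_ (norm_nonneg _) (by positivity)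
    have h3 := norm_sub_le s 1
    rw [norm_one] at h3
    linarith

end Pool.Agent.H54.CMC
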